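import Pool.Agent.H12.PK.Fin
import Pool.Agent.H12.PK.RandN

/-!
# Minimum-degree peeling succeeds with high probability at `k = ⌊√n⌋`

For `k = ⌊√n⌋ (≤ √n)` minimum-degree peeling of `G(n, 1/2, k)` stops, with probability tending to
one, at a clique that contains at least `53/100 · √n` planted vertices, for every tie-breaking rule
which is a function of the current vertex set and the current degrees, and for uniformly random
tie-breaking. So peeling does not fail with high probability for `k ≤ √n`: it succeeds with high
probability at `k = ⌊√n⌋`.

The certificate for the fluid limit down to `n/256` remaining vertices, the fluid limit lemma and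
the one-sided drift bound for planted vertices are those of the library (which has success with
probability at least `1/2`). New: the removals of planted vertices after that time are counted with
high probability, window by window, by Gaussian test functions on the planted vertices which were
not too low at `n/256`, with the bound of Mills; only the removals after `n/V` remaining vertices,
`V` arbitrarily large, are counted in mean.
-/

set_option autoImplicit false

namespace Pool.Agent.Results.MP_350a25_pr.SucceedsWhp

open Finset W841.PK Pool.Agent.H12.PK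

/-- average of `f G S` over a uniform simple graph `G` on `Fin n` and an independent uniform
`k`-subset `S` -/
noncomputable def avgGS (n k : ℕ) (f : SimpleGraph (Fin n) → Finset (Fin n) → ℝ) : ℝ :=
  (∑ S ∈ (univ : Finset (Fin n)).powersetCard k, ∑ G : SimpleGraph (Fin n), f G S) /
    ((((univ : Finset (Fin n)).powersetCard k).card : ℝ) *
      (Fintype.card (SimpleGraph (Fin n)) : ℝ))

theorem avg_ge (n k : ℕ) (hk : k ≤ n) (c : ℝ) (f : SimpleGraph (Fin n) → Finset (Fin n) → ℝ)
    (h : ∀ S : Finset (Fin n), S.card = k → c ≤ Ex (fun G => f G S)) : c ≤ avgGS n k f := by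
  have h1 : (0 : ℝ) < (((univ : Finset (Fin n)).powersetCard k).card : ℝ) := by
    rw [card_powersetCard, card_univ, Fintype.card_fin]
    exact_mod_cast Nat.choose_pos hk
  have h2 : (0 : ℝ) < (Fintype.card (SimpleGraph (Fin n)) : ℝ) := card_pos'
  unfold avgGS
  rw [le_div_iff₀ (by positivity)]
  calc c * ((((univ : Finset (Fin n)).powersetCard k).card : ℝ) *
        (Fintype.card (SimpleGraph (Fin n)) : ℝ))
      = ∑ S ∈ (univ : Finset (Fin n)).powersetCard k,
          c * (Fintype.card (SimpleGraph (Fin n)) : ℝ) := by
        rw [sum_const, nsmul_eq_mul]; ring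
    _ ≤ _ := sum_le_sum fun S hS => by
        have := h S (mem_powersetCard.1 hS).2
        unfold Ex at this
        rwa [le_div_iff₀ h2] at this

open Classical in
/-- **Result.** For `k = ⌊√n⌋` (which is `≤ √n`) and every `ε > 0` there is `n0` such that for all
`n ≥ n0`, for every tie-breaking rule `ρ`, the probability that peeling stops at a clique with at
least `53/100 · √n` planted vertices is at least `1 - ε`; the same for uniformly random
tie-breaking. In particular the algorithm succeeds with high probability. -/
theorem result : (∀ n : ℕ, (Nat.sqrt n : ℝ) ≤ √(n : ℝ)) ∧ ∀ ε : ℝ, 0 < ε → ∃ n0 : ℕ, ∀ n ≥ n0,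
    (∀ ρ : Rule n, IsRule ρ →
      1 - ε ≤ avgGS n (Nat.sqrt n)
        (fun G S => if SuccN ρ (plant G S) S (53 / 100 * √(n : ℝ)) then 1 else 0)) ∧
    1 - ε ≤ avgGS n (Nat.sqrt n)
      (fun G S => rspN (plant G S) S (53 / 100 * √(n : ℝ)) n univ) := by
  refine ⟨fun n => Real.nat_sqrt_le_real_sqrt, fun ε hε => ?_⟩
  obtain ⟨n0, h⟩ := main_whp ε hε
  refine ⟨max n0 1, fun n hn => ⟨fun ρ hρ => ?_, ?_⟩⟩
  · refine avg_ge n _ (Nat.sqrt_le_self n) _ _ fun S hS => ?_
    have := h n (le_trans (le_max_left _ _) hn) S ρ hS hρ
    exact this
  · refine avg_ge n _ (Nat.sqrt_le_self n) _ _ fun S hS => ?_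
    exact randN n S _ _ (le_trans (le_max_right _ _) hn) fun ρ hρ =>
      h n (le_trans (le_max_left _ _) hn) S ρ hS hρ

end Pool.Agent.Results.MP_350a25_pr.SucceedsWhp
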